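import Mathlib

open Filter Topology

namespace Pool.Agent.Results.MP_8d137a_pr.Cycle

section Defs
variable {s : ℕ}

/-- Expectation of `F` at the word formed by `n` independent letters with law `p`. -/
noncomputable def E (p : Fin s → ℝ) (n : ℕ) (F : List (Fin s) → ℝ) : ℝ :=
  ∑ w : Fin n → Fin s, (∏ i, p (w i)) * F (List.ofFn w)

open Classical in
/-- Probability that the waiting time of `A` equals `n`: the first `n` letters end with `A`
and for no `m < n` do the first `m` letters end with `A`. -/
noncomputable def hit (p : Fin s → ℝ) (A : List (Fin s)) (n : ℕ) : ℝ :=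
  E p n fun l => if A <:+ l ∧ ∀ m < n, ¬ A <:+ l.take m then 1 else 0

/-- `Pr(τ_A < τ_B) + Pr(τ_A = τ_B) / 2` for independent waiting times. -/
noncomputable def win (p : Fin s → ℝ) (A B : List (Fin s)) : ℝ :=
  ∑' n, hit p A n * ∑' m, hit p B m * (if n < m then 1 else if n = m then 1 / 2 else 0)

end Defs

variable {s : ℕ} {p : Fin s → ℝ}

theorem E_zero (F : List (Fin s) → ℝ) : E p 0 F = F [] := by simp [E]

theorem E_succ (n : ℕ) (F : List (Fin s) → ℝ) :
    E p (n + 1) F = ∑ x, p x * E p n fun l => F (x :: l) := by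
  unfold E
  rw [← (Fin.consEquiv fun _ : Fin (n + 1) => Fin s).sum_comp, Fintype.sum_prod_type]
  refine Finset.sum_congr rfl fun x _ => ?_
  rw [Finset.mul_sum]
  refine Finset.sum_congr rfl fun w _ => ?_
  simp [Fin.consEquiv, Fin.prod_univ_succ, List.ofFn_succ, mul_assoc]

theorem E_take (h1 : ∑ x, p x = 1) (n : ℕ) (F : List (Fin s) → ℝ) :
    E p (n + 1) (fun l => F (l.take n)) = E p n F := by
  induction n generalizing F with
  | zero => simp [E_succ, E_zero, ← Finset.sum_mul, h1]
  | succ n ih =>
    rw [E_succ, E_succ n F]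
    refine Finset.sum_congr rfl fun x _ => ?_
    simp only [List.take_succ_cons]
    rw [ih fun l => F (x :: l)]

open Classical in
/-- Indicator of avoidance. -/
noncomputable def av (A l : List (Fin s)) : ℝ := if A <:+: l then 0 else 1

/-- Survival function. -/
noncomputable def S (p : Fin s → ℝ) (A : List (Fin s)) (n : ℕ) : ℝ := E p n (av A)

theorem occ (A l : List (Fin s)) : A <:+: l ↔ ∃ m ≤ l.length, A <:+ l.take m := by
  rw [List.infix_iff_suffix_prefix]
  constructor
  · rintro ⟨t, h1, h2⟩
    exact ⟨t.length, h2.length_le, by rwa [← List.prefix_iff_eq_take.1 h2]⟩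
  · rintro ⟨m, -, h⟩
    exact ⟨_, h, List.take_prefix _ _⟩

theorem hit_succ (h1 : ∑ x, p x = 1) (A : List (Fin s)) (n : ℕ) :
    hit p A (n + 1) = S p A n - S p A (n + 1) := by
  rw [S, S, ← E_take h1 n, hit, E, E, E, ← Finset.sum_sub_distrib]
  refine Finset.sum_congr rfl fun w _ => ?_
  rw [← mul_sub]
  congr 1
  have hl : (List.ofFn w).length = n + 1 := List.length_ofFn
  generalize List.ofFn w = l at hl
  have a1 : A <:+: l.take n ↔ ∃ m < n + 1, A <:+ l.take m := by
    rw [occ, List.length_take, hl, min_eq_left (Nat.le_succ n)]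
    refine exists_congr fun m => ?_
    rw [Nat.lt_succ_iff]
    refine and_congr_right fun hm => ?_
    rw [List.take_take, min_eq_left hm]
  have a2 : A <:+: l ↔ (∃ m < n + 1, A <:+ l.take m) ∨ A <:+ l := by
    rw [occ, hl]
    constructor
    · rintro ⟨m, hm, h⟩
      rcases hm.lt_or_eq with hm | hm
      · exact Or.inl ⟨m, hm, h⟩
      · rw [hm, ← hl, List.take_length] at h; exact Or.inr h
    · rintro (⟨m, hm, h⟩ | h)
      · exact ⟨m, hm.le, h⟩
      · exact ⟨n + 1, le_rfl, by rwa [← hl, List.take_length]⟩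
  have a3 : (∀ m < n + 1, ¬ A <:+ l.take m) ↔ ¬ ∃ m < n + 1, A <:+ l.take m := by simp
  simp only [av, a1, a2, a3]
  by_cases c1 : ∃ m < n + 1, A <:+ l.take m <;> by_cases c2 : A <:+ l <;>
    simp only [c1, c2, not_true_eq_false, not_false_eq_true, and_self, and_true, and_false,
      or_self, or_true, or_false, if_true, if_false] <;> norm_num

theorem E_nn (h0 : ∀ x, 0 ≤ p x) (n : ℕ) {F : List (Fin s) → ℝ} (hF : ∀ l, 0 ≤ F l) :
    0 ≤ E p n F :=
  Finset.sum_nonneg fun _ _ => mul_nonneg (Finset.prod_nonneg fun _ _ => h0 _) (hF _)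

theorem split (h1 : ∑ x, p x = 1) (a : Fin s) (f : Fin s → ℝ) (c : ℝ) (h : ∀ x, x ≠ a → f x = c) :
    ∑ x, p x * f x = (1 - p a) * c + p a * f a := by
  have : ∑ x, p x * f x = ∑ x, (p x * c + if x = a then p a * (f a - c) else 0) :=
    Finset.sum_congr rfl fun x _ => by
      by_cases e : x = a
      · simp [e]; ring
      · simp [e, h x e]
  rw [this, Finset.sum_add_distrib, ← Finset.sum_mul, h1]
  simp; ring

/-- The facts about a survival function used below. -/
structure Rec (X : ℕ → ℝ) (q r : ℝ) : Prop where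
  x0 : X 0 = 1
  x1 : X 1 = 1
  x2 : X 2 = 1
  re : ∀ n, X (n + 3) = X (n + 2) - q * X (n + 1) + r * X n
  nn : ∀ n, 0 ≤ X n
  le : ∀ n, X n ≤ 1
  su : Summable X

theorem recS (h0 : ∀ x, 0 < p x) (h1 : ∑ x, p x = 1) {a b : Fin s} (hab : a ≠ b) :
    Rec (S p [a, b, a]) (p a * p b) (p a * p b * (1 - p a)) := by
  have v1 : ∀ x l, x ≠ a → av [a, b, a] (x :: l) = av [a, b, a] l := fun x l h => by
    simp [av, List.infix_cons_iff, h.symm]
  have v2 : ∀ y l, y ≠ b → av [a, b, a] (a :: y :: l) = av [a, b, a] (y :: l) := fun y l h => by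
    unfold av
    exact if_congr (by rw [List.infix_cons_iff]; simp [h.symm]) rfl rfl
  have v3 : ∀ z l, z ≠ a → av [a, b, a] (a :: b :: z :: l) = av [a, b, a] l := fun z l h => by
    rw [← v1 z l h, ← v1 b (z :: l) hab.symm]
    unfold av
    exact if_congr (by rw [List.infix_cons_iff]; simp [h.symm]) rfl rfl
  have v4 : ∀ l, av [a, b, a] (a :: b :: a :: l) = 0 := fun l => by
    simp [av, List.infix_cons_iff]
  set X := S p [a, b, a] with hX
  let X1 : ℕ → ℝ := fun n => E p n fun l => av [a, b, a] (a :: l)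
  let X2 : ℕ → ℝ := fun n => E p n fun l => av [a, b, a] (a :: b :: l)
  have r0 : ∀ n, X (n + 1) = (1 - p a) * X n + p a * X1 n := fun n => by
    rw [hX, S, E_succ]
    exact split h1 a _ _ fun x hx => by simp only [v1 x _ hx]; rfl
  have r2 : ∀ n, X2 (n + 1) = (1 - p a) * X n := fun n => by
    simp only [X2]
    rw [E_succ, split h1 a _ (X n) fun x hx => by simp only [v3 x _ hx]; rfl]
    simp [v4, E]
  have r1 : ∀ n, X1 (n + 1) = X (n + 1) + p b * (X2 n - X n) := fun n => by
    simp only [X1]
    rw [hX, S, E_succ, E_succ, ← sub_eq_iff_eq_add', ← Finset.sum_sub_distrib,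
      Finset.sum_eq_single b (fun y _ hy => by simp only [v2 y _ hy, sub_self]) (by simp)]
    simp only [v1 b _ hab.symm, X2, S]
    ring
  have z0 : X 0 = 1 := by simp [hX, S, E_zero, av]
  have z1 : X1 0 = 1 := by
    simp only [X1, E_zero, av]
    rw [if_neg fun h => by simpa using h.length_le]
  have z2 : X2 0 = 1 := by
    simp only [X2, E_zero, av]
    rw [if_neg fun h => by simpa using h.length_le]
  have y1 : X 1 = 1 := by rw [r0, z0, z1]; ring
  have y2 : X 2 = 1 := by rw [r0, r1, y1, z0, z2]; ring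
  have re : ∀ n, X (n + 3) = X (n + 2) - p a * p b * X (n + 1) + p a * p b * (1 - p a) * X n :=
    fun n => by rw [r0 (n + 2), r1, r2]; ring
  have nn : ∀ n, 0 ≤ X n := fun n => E_nn (fun x => (h0 x).le) n fun l => by
    unfold av; split_ifs <;> norm_num
  have le : ∀ n, X n ≤ 1 := fun n => by
    induction n with
    | zero => exact z0.le
    | succ n ih =>
      have := hit_succ h1 [a, b, a] n
      have h : 0 ≤ hit p [a, b, a] (n + 1) := E_nn (fun x => (h0 x).le) _ fun l => by
        split_ifs <;> norm_num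
      rw [← hX] at this
      linarith
  refine ⟨z0, y1, y2, re, nn, le, ?_⟩
  have ha := h0 a
  have hb := h0 b
  have t : ∀ n, p a * p b * p a * ∑ i ∈ Finset.range n, X i =
      1 - X (n + 2) + p a * p b * (1 - X n) := fun n => by
    induction n with
    | zero => simp [z0, y2]
    | succ n ih => rw [Finset.sum_range_succ, mul_add, ih, re]; ring
  refine summable_of_sum_range_le (c := (1 + p a * p b) / (p a * p b * p a)) nn fun n => ?_
  rw [le_div_iff₀ (by positivity), mul_comm, t]
  nlinarith [nn n, nn (n + 2), mul_pos ha hb]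

/-- Numerator. -/
def Nu (q r u v : ℝ) : ℝ := (1)*v + (-1)*u + (-1)*r + (-1)*r*u + (-2)*r*u*v + (2)*r*u^2 + (3)*r^2*u*v + (-1)*r^2*u^2 + (1)*r^2*u^2*v + (-1)*r^2*u^3 + (-1)*r^3*u*v^2 + (1)*q + (1)*q*v + (2)*q*r*v + (-3)*q*r*v^2 + (1)*q*r*u^2 + (1)*q*r^2*v^3 + (-2)*q^2*v + (1)*q^2*v^2 + (-1)*q^2*u*v + (-1)*q^2*r*v^2 + (1)*q^3*v^2

/-- Denominator. -/
def De (q r u v : ℝ) : ℝ := (-1)*v + (1)*u + (-1)*r + (-5)*r*v + (4)*r*u + (2)*r*u*v + (-2)*r*u^2 + (5)*r^2*v^2 + (-3)*r^2*u*v + (-1)*r^2*u^2*v + (1)*r^2*u^3 + (-1)*r^3*v^3 + (1)*q + (4)*q*v + (-3)*q*u + (2)*q*r*v + (-3)*q*r*v^2 + (2)*q*r*u*v + (-1)*q*r*u^2 + (1)*q*r^2*u*v^2 + (-2)*q^2*v + (-1)*q^2*u*v + (1)*q^2*u^2 + (-1)*q^2*r*v^2 + (1)*q^3*v^2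

theorem key {X Y : ℕ → ℝ} {q r u v : ℝ} (hX : Rec X q r) (hY : Rec Y u v) :
    De q r u v * (2 * (∑' k, (X k - X (k + 1)) * ((Y k + Y (k + 1)) / 2)) - 1) = Nu q r u v := by
  have sm : ∀ i j, Summable fun n => X (n + i) * Y (n + j) := fun i j =>
    Summable.of_nonneg_of_le (fun n => mul_nonneg (hX.nn _) (hY.nn _))
      (fun n => mul_le_of_le_one_right (hX.nn _) (hY.le _)) ((summable_nat_add_iff i).2 hX.su)
  let T : ℕ → ℕ → ℝ := fun i j => ∑' n, X (n + i) * Y (n + j)
  have sh : ∀ i j, T i j = X i * Y j + T (i + 1) (j + 1) := fun i j => by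
    simp only [T]
    rw [(sm i j).tsum_eq_zero_add]
    simp only [zero_add, add_assoc, add_comm 1]
  have rx : ∀ j, T 3 j = T 2 j - q * T 1 j + r * T 0 j := fun j =>
    ((((sm 2 j).hasSum.sub ((sm 1 j).hasSum.mul_left q)).add
      ((sm 0 j).hasSum.mul_left r)).tsum_eq.symm.trans (tsum_congr fun n => by
        rw [hX.re, add_zero]; ring)).symm
  have ry : ∀ i, T i 3 = T i 2 - u * T i 1 + v * T i 0 := fun i =>
    ((((sm i 2).hasSum.sub ((sm i 1).hasSum.mul_left u)).add
      ((sm i 0).hasSum.mul_left v)).tsum_eq.symm.trans (tsum_congr fun n => by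
        rw [hY.re, add_zero]; ring)).symm
  have w : ∑' k, (X k - X (k + 1)) * ((Y k + Y (k + 1)) / 2) =
      (T 0 0 + T 0 1 - T 1 0 - T 1 1) / 2 :=
    ((((((sm 0 0).hasSum.add (sm 0 1).hasSum).sub (sm 1 0).hasSum).sub
      (sm 1 1).hasSum).div_const 2).tsum_eq.symm.trans (tsum_congr fun n => by
        simp only [add_zero]; ring)).symm
  have s00 := sh 0 0
  have s01 := sh 0 1
  have s02 := sh 0 2
  have s10 := sh 1 0
  have s11 := sh 1 1
  have s12 := sh 1 2
  have s20 := sh 2 0
  have s21 := sh 2 1
  have s22 := sh 2 2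
  simp only [hX.x0, hX.x1, hX.x2, hY.x0, hY.x1, hY.x2, Nat.reduceAdd] at s00 s01 s02 s10 s11 s12 s20 s21 s22
  have x1 := rx 1
  have x2 := rx 2
  have x3 := rx 3
  have y0 := ry 0
  have y1 := ry 1
  have y2 := ry 2
  have t11 : T 1 1 = T 0 0 - 1 := by linarith
  have t12 : T 1 2 = T 0 1 - 1 := by linarith
  have t13 : T 1 3 = T 0 2 - 1 := by linarith
  have t21 : T 2 1 = T 1 0 - 1 := by linarith
  have t22 : T 2 2 = T 0 0 - 2 := by linarith
  have t23 : T 2 3 = T 0 1 - 2 := by linarith
  have t31 : T 3 1 = T 2 0 - 1 := by linarith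
  have t32 : T 3 2 = T 1 0 - 2 := by linarith
  have t33 : T 3 3 = T 0 0 - 3 := by linarith
  simp only [t11, t12, t13, t21, t22, t23, t31, t32, t33, y0] at x1 x2 x3 y1 y2
  have c2 : T 2 0 = T 1 0 - q * (T 0 0 - 1) + r * T 0 1 := by linarith
  have b2 : T 0 2 = T 0 1 - u * (T 0 0 - 1) + v * T 1 0 := by linarith
  rw [c2] at y2
  rw [b2] at x2 x3
  rw [w, t11, Nu, De]
  linear_combination -((-1)*v + (1)*u + (-1)*r + (-3)*r*v + (1)*r*v^2 + (2)*r*u + (-2)*r*u*v + (1)*r*u^2 + (1)*r^2*v^2 + (-1)*r^2*u*v + (1)*q + (2)*q*v + (-1)*q*u + (1)*q*u*v + (-1)*q*u^2 + (1)*q*r*v + (1)*q*r*v^2 + (-1)*q^2*v + (-1)*q^2*v^2) * x2 - ((2)*r + (3)*r*v + (-3)*r*u + (-1)*r^2*v + (-1)*r^2*v^2 + (1)*r^2*u^2 + (-2)*q + (-1)*q*v + (1)*q*u + (1)*q*r*v + (-1)*q*r*u + (1)*q^2*u) * y2 - ((-1)*v + (1)*u + (1)*r + (-1)*r*u + (1)*r*u*v + (-1)*r*u^2 + (1)*r^2*u*v + (-1)*q + (1)*q*v + (-1)*q*r*v + (-1)*q*r*v^2 + (1)*q^2*v) * x3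

theorem inner {Y h : ℕ → ℝ} (su : Summable Y) (hs : ∀ m, h (m + 1) = Y m - Y (m + 1)) (n : ℕ) :
    ∑' m, h m * (if n < m then 1 else if n = m then 1 / 2 else 0) = Y n + h n / 2 := by
  refine HasSum.tsum_eq ?_
  rw [← hasSum_nat_add_iff' (n + 1), Finset.sum_range_succ,
    Finset.sum_eq_zero fun m hm => by
      have := Finset.mem_range.1 hm
      rw [if_neg (by omega), if_neg (by omega), mul_zero]]
  have a := (summable_nat_add_iff n).2 su
  have b := (summable_nat_add_iff 1).2 a
  have c := a.hasSum.sub b.hasSum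
  rw [a.tsum_eq_zero_add, add_sub_cancel_right, zero_add] at c
  have e : Y n + h n / 2 - (0 + h n * (if n < n then 1 else if n = n then 1 / 2 else 0)) = Y n := by
    simp; ring
  rw [e]
  have f : ∀ m, h (m + (n + 1)) * (if n < m + (n + 1) then 1 else if n = m + (n + 1) then 1 / 2
      else 0) = Y (m + n) - Y (m + 1 + n) := fun m => by
    rw [if_pos (by omega), ← add_assoc, hs, mul_one, add_right_comm]
  simp only [f]
  exact c

theorem win_eq (h0 : ∀ x, 0 < p x) (h1 : ∑ x, p x = 1) {a b c d : Fin s} (hab : a ≠ b)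
    (hcd : c ≠ d) {q r u v : ℝ} (e1 : p a * p b = q) (e2 : q * (1 - p a) = r)
    (e3 : p c * p d = u) (e4 : u * (1 - p c) = v) (hD : 0 < De q r u v) (hN : 0 < Nu q r u v) :
    1 / 2 < win p [a, b, a] [c, d, c] := by
  have hX := recS h0 h1 hab
  have hY := recS h0 h1 hcd
  rw [e1, e2] at hX
  rw [e3, e4] at hY
  have k := key hX hY
  have z : hit p [a, b, a] 0 = 0 := by simp [hit, E_zero]
  have e : win p [a, b, a] [c, d, c] = ∑' k, (S p [a, b, a] k - S p [a, b, a] (k + 1)) *
      ((S p [c, d, c] k + S p [c, d, c] (k + 1)) / 2) := by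
    simp only [win, inner hY.su (hit_succ h1 _)]
    rw [← Function.Injective.tsum_eq (g := Nat.succ) Nat.succ_injective]
    · refine tsum_congr fun n => ?_
      rw [hit_succ h1, hit_succ h1]; ring
    · intro n hn
      cases n with
      | zero => simp [z] at hn
      | succ n => exact ⟨n, rfl⟩
  rw [← k, ← e] at hN
  linarith [(mul_pos_iff_of_pos_left hD).1 hN]

/-- First parameter curve. -/
noncomputable def r₁ (e : ℝ) : ℝ := 6 / 343 + (4826684542315/4840436564033) * e + (1017510026461978319142097323/330643111051479730657427091352065959) * e ^ 2 - 1 / 10 ^ 7 * e ^ 3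

theorem ev {f : ℝ → ℝ} (hf : ContinuousAt f 0) {c : ℝ} (h : c < f 0) :
    ∀ᶠ e in 𝓝[>] (0 : ℝ), c < f e :=
  (hf.eventually (lt_mem_nhds h)).filter_mono nhdsWithin_le_nhds

theorem pos3 {N K : ℝ → ℝ} (h : ∀ e, N e = e ^ 3 * K e) (hK : ContinuousAt K 0) (h0 : 0 < K 0) :
    ∀ᶠ e in 𝓝[>] (0 : ℝ), 0 < N e := by
  filter_upwards [ev hK h0, self_mem_nhdsWithin] with e h1 h2
  rw [h]
  exact mul_pos (pow_pos h2 3) h1

theorem n12 : ∀ᶠ e in 𝓝[>] (0 : ℝ), 0 < Nu (1 / 49 + e) (r₁ e) (1 / 49) (6 / 343) :=
  pos3 (K := fun e => (158182275718712259820444183844489729187717730739634823584599/1550666953532529538191515612391662252826525604788085318973290000000) + (-54147771392890018905754435501993960223439864574719104574097503100855559242014773/15131968807774682913015615455994842452929728497797440480109027880955629007639728810000000)*e^1 + (1676037360625773643238461364811523778149615654387616705902981426664584828241393628095199/53385812757259050740760481845692772386755347335479741549534088044691445940429966784417142777500000)*e^2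 + (23368067728160440229048779357958617108152391138066616742950394217437643690092293900793499669633521177599278163587/3573772316383265588527753073480696256334671691619676087531030549516698842280226755155534207461575964721493685708984850000000000000)*e^3 + (-14700153692171785235936365231584882011147743774311135882125018292604937721/110291317840923344847052590787134420210858079430010499126159095342242193933234175000000000000)*e^4 + (-4765606083275626446921/8266077776286993266435677283801648975000000000000)*e^5 + (9/1441200250000000000000000000)*e^6) (fun e => by unfold Nu r₁; ring) (by fun_prop) (by norm_num)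

theorem n23 : ∀ᶠ e in 𝓝[>] (0 : ℝ), 0 < Nu (1 / 49) (6 / 343) (1 / 49 - e) (r₁ (-e)) :=
  pos3 (K := fun e => (158182275718712259820444183844489729187717730739634823584599/1550666953532529538191515612391662252826525604788085318973290000000) + (54147771392890018905754435501993960223439864574719104574097503100855559242014773/15131968807774682913015615455994842452929728497797440480109027880955629007639728810000000)*e^1 + (1676037360625773643238461364811523778149615654387616705902981426664584828241393628095199/53385812757259050740760481845692772386755347335479741549534088044691445940429966784417142777500000)*e^2 + (-23368067728160440229048779357958617108152391138066616742950394217437643690092293900793499669633521177599278163587/3573772316383265588527753073480696256334671691619676087531030549516698842280226755155534207461575964721493685708984850000000000000)*e^3 + (-14700153692171785235936365231584882011147743774311135882125018292604937721/110291317840923344847052590787134420210858079430010499126159095342242193933234175000000000000)*e^4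 + (4765606083275626446921/8266077776286993266435677283801648975000000000000)*e^5 + (9/1441200250000000000000000000)*e^6) (fun e => by unfold Nu r₁; ring) (by fun_prop) (by norm_num)

theorem n31 : ∀ᶠ e in 𝓝[>] (0 : ℝ), 0 < Nu (1 / 49 - e) (r₁ (-e)) (1 / 49 + e) (r₁ e) :=
  pos3 (K := fun e => (126400364541808462710628372501823814391930510258947166415401/775333476766264769095757806195831126413262802394042659486645000000) + (-5185055951316712974314409053256459713812921358110538418592248170007516556353017616261865987/106771625514518101481520963691385544773510694670959483099068176089382891880859933568834285555000000)*e^2 + (-423879736000245312580752571226112153286030288879114223099252057330695446270303189971819107373144075336356449840564409367555471786263/2017331567551075157886106433826327318806428507698035764634998725057745260977694435179145279028560531025973658289994614914338414000000000000)*e^4 + (263413462604498363909417253419287519868325120705426696427292345597720068514204199472702364091975695144080759945916137583184172386431518952350511370460021326695575360779/5955507013548623458415472768240569073940712008010890164880834048988880158366825737454223821154688361749426108887209659426240138807481541828144570627017237280794875000000000000000000)*e^6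 + (-12493713293800037166312894671829282490676462022096006526838707249717196033787041979729819419507421815505765507087423762440388696875632631746709639042919256419406393902291222683814493/4744162512082086423594302265028190460874128325759121392767633850297945342545570488389807629458840833836707541556843243468384400747850142291523941055027797400288541380528906321195699500000000000000000000)*e^8 + (2566548560037964862618326384986508433915949092653106178135018973969015376894273403141583596846399997261065101/61992986685633477869014959466609450288651276802437344975672717055050102202664528318593030487289604007518970485000000000000000000000000000)*e^10 + (-829223024017849107037054779622065959/810075622076125340110696373812561599550000000000000000000000000000000000)*e^12) (fun e => by unfold Nu r₁; ring) (by fun_prop) (by norm_num)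

/-- First letter. -/
noncomputable def pa (e : ℝ) : ℝ := (1 / 49 + e - r₁ e) / (1 / 49 + e)

/-- Second letter. -/
noncomputable def pb (e : ℝ) : ℝ := (1 / 49 + e) ^ 2 / (1 / 49 + e - r₁ e)

/-- The probability vector. -/
noncomputable def pv (e : ℝ) : Fin 7 → ℝ :=
  ![pa e, pb e, 1 / 7, 1 / 7, pa (-e), pb (-e), 5 / 7 - pa e - pb e - pa (-e) - pb (-e)]

theorem pv_cont (i : Fin 7) : ContinuousAt (fun e => pv e i) 0 ∧ pv 0 i = 1 / 7 := by
  have a : ContinuousAt pa 0 := by unfold pa r₁; fun_prop (disch := norm_num)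
  have b : ContinuousAt pb 0 := by unfold pb r₁; fun_prop (disch := norm_num)
  have n : ContinuousAt (fun e : ℝ => -e) 0 := by fun_prop
  have a' : ContinuousAt (fun e => pa (-e)) 0 := ContinuousAt.comp_of_eq a n neg_zero
  have b' : ContinuousAt (fun e => pb (-e)) 0 := ContinuousAt.comp_of_eq b n neg_zero
  have a0 : pa 0 = 1 / 7 := by norm_num [pa, r₁]
  have b0 : pb 0 = 1 / 7 := by norm_num [pb, r₁]
  fin_cases i
  · exact ⟨a, a0⟩
  · exact ⟨b, b0⟩
  · exact ⟨continuousAt_const, rfl⟩
  · exact ⟨continuousAt_const, rfl⟩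
  · exact ⟨a', by simpa [pv] using a0⟩
  · exact ⟨b', by simpa [pv] using b0⟩
  · exact ⟨(((continuousAt_const.sub a).sub b).sub a').sub b', by
      simp [pv, a0, b0]; norm_num⟩

theorem result (ε : ℝ) (hε : 0 < ε) : ∃ p : Fin 7 → ℝ, (∀ i, 0 < p i) ∧ ∑ i, p i = 1 ∧
    (∀ i, |p i - 1 / 7| < ε) ∧ ∃ A B C : List (Fin 7),
      A.length = 3 ∧ B.length = 3 ∧ C.length = 3 ∧
      1 / 2 < win p A B ∧ 1 / 2 < win p B C ∧ 1 / 2 < win p C A := by
  have h1 : ∀ᶠ e in 𝓝[>] (0 : ℝ), ∀ i, 0 < pv e i := eventually_all.2 fun i =>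
    ev (pv_cont i).1 (by rw [(pv_cont i).2]; norm_num)
  have h2 : ∀ᶠ e in 𝓝[>] (0 : ℝ), ∀ i, -ε < -|pv e i - 1 / 7| := eventually_all.2 fun i =>
    ev (f := fun e => -|pv e i - 1 / 7|) ((pv_cont i).1.sub continuousAt_const).abs.neg
      (by simp only [(pv_cont i).2]; simpa using hε)
  have d12 := ev (f := fun e => De (1 / 49 + e) (r₁ e) (1 / 49) (6 / 343)) (c := 0)
    (by unfold De r₁; fun_prop) (by norm_num [De, r₁])
  have d23 := ev (f := fun e => De (1 / 49) (6 / 343) (1 / 49 - e) (r₁ (-e))) (c := 0)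
    (by unfold De r₁; fun_prop) (by norm_num [De, r₁])
  have d31 := ev (f := fun e => De (1 / 49 - e) (r₁ (-e)) (1 / 49 + e) (r₁ e)) (c := 0)
    (by unfold De r₁; fun_prop) (by norm_num [De, r₁])
  have g1 := ev (f := fun e => 1 / 49 + e - r₁ e) (c := 0) (by unfold r₁; fun_prop)
    (by norm_num [r₁])
  have g2 := ev (f := fun e => 1 / 49 + -e - r₁ (-e)) (c := 0) (by unfold r₁; fun_prop)
    (by norm_num [r₁])
  have g3 := ev (f := fun e => 1 / 49 + e) (c := 0) (by fun_prop) (by norm_num)
  have g4 := ev (f := fun e => 1 / 49 + -e) (c := 0) (by fun_prop) (by norm_num)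
  obtain ⟨e, ⟨⟨⟨⟨h1, h2⟩, d12, d23, d31⟩, g1, g2, g3, g4⟩, m12, m23, m31⟩⟩ :=
    ((((h1.and h2).and (d12.and (d23.and d31))).and (g1.and (g2.and (g3.and g4)))).and
      (n12.and (n23.and n31))).exists
  have hs : ∑ i, pv e i = 1 := by
    simp [pv, Fin.sum_univ_succ]; ring
  have u : ∀ x : ℝ, 0 < 1 / 49 + x - r₁ x → 0 < 1 / 49 + x →
      pa x * pb x = 1 / 49 + x ∧ (1 / 49 + x) * (1 - pa x) = r₁ x := fun x k1 k2 => by
    unfold pa pb
    generalize 1 / 49 + x = y at *
    constructor <;> field_simp
    ring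
  have u1 := u e g1 g3
  have u2 := u (-e) g2 g4
  rw [← sub_eq_add_neg] at u2
  have v1 : pv e 2 * pv e 3 = 1 / 49 := by simp [pv]; norm_num
  have v2 : 1 / 49 * (1 - pv e 2) = 6 / 343 := by simp [pv]; norm_num
  refine ⟨pv e, h1, hs, fun i => by linarith [h2 i], [0, 1, 0], [2, 3, 2], [4, 5, 4],
    rfl, rfl, rfl, ?_, ?_, ?_⟩
  · exact win_eq h1 hs (by decide) (by decide) u1.1 u1.2 v1 v2 d12 m12
  · exact win_eq h1 hs (by decide) (by decide) v1 v2 u2.1 u2.2 d23 m23
  · exact win_eq h1 hs (by decide) (by decide) u2.1 u2.2 u1.1 u1.2 d31 m31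

end Pool.Agent.Results.MP_8d137a_pr.Cycle
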